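import Pool.Agent.Q180.Skula

/-!
# Canonical clopen selectors on final-subset spaces of well-founded narrow posets
-/

set_option autoImplicit false

open Set

universe u

namespace Pool.Agent.Results.MP_0a42ff_gt.WellFoundedCase

open Pool.Agent.Q180.Skula

/-- For every well-founded narrow poset `P` (a well-quasi-order) the compact Hausdorff space `FS(P)`
of final subsets is canonically Skula. -/
theorem result (P : Type u) [PartialOrder P] (hwf : WellFounded (fun x y : P => x < y))
    (hnarrow : ∀ s : Set P, IsAntichain (fun x y => x ≤ y) s → s.Finite) :
    CompactSpace (FS P) ∧ T2Space (FS P) ∧ CanonicallySkula (FS P) :=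
  ⟨inferInstance, inferInstance, canonicallySkula (wqo_of_narrow hwf hnarrow)⟩

end Pool.Agent.Results.MP_0a42ff_gt.WellFoundedCase
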